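import Pool.Agent.L7h71.UC.Stm
import Pool.Agent.H565R2.FO2.USec

set_option autoImplicit false

/-!
# Project UC (helper71), part CSF: finitely many points without name
-/

namespace Pool.Agent.L7h73.UC

open Set Function
open Pool.Agent.H533R2.VO (RS RIso Dich)
open Pool.Agent.L7h71.UC

variable {a : ℕ → ℕ}

theorem riso_symm {x y : RS a} (h : RIso x y) : RIso y x := by
  obtain ⟨σ, hσ⟩ := h
  refine ⟨σ.symm, fun i v => ?_⟩
  rw [← hσ]
  congr 1
  funext j
  simp

theorem riso_nm {x y : RS a} {σ : Equiv.Perm ℕ}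
    (hσ : ∀ (i : ℕ) (v : Fin (a i) → ℕ), y i (⇑σ ∘ v) = x i v) (k p : ℕ) :
    Nm y k (σ p) ↔ Nm x k p := by
  unfold Nm
  rw [← hσ k (fun _ => p)]
  rfl

/-- the point named by `k` -/
noncomputable def nm {Kc : Set ℕ} {x : RS a} (h : Cs Kc x) (k : Kc) : ℕ := (h k k.2).choose

theorem nm_spec {Kc : Set ℕ} {x : RS a} (h : Cs Kc x) (k : Kc) : Nm x k (nm h k) :=
  (h k k.2).choose_spec.1

theorem nm_eq {Kc : Set ℕ} {x : RS a} (h : Cs Kc x) (k : Kc) {p : ℕ} (hp : Nm x k p) :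
    p = nm h k := (h k k.2).choose_spec.2 p hp

/-- the points of the structure as named points and the others -/
theorem exists_equiv {Kc : Set ℕ} {P : Type} {q : Kc → P} (hq : Surjective q) {j : ℕ} {x : RS a}
    (hx : Cs Kc x ∧ (CP Kc x)ᶜ.Finite ∧ (CP Kc x)ᶜ.ncard = j ∧ Pat Kc q x) :
    ∃ e : P ⊕ Fin j ≃ ℕ, ∀ k : Kc, Nm x k (e (Sum.inl (q k))) := by
  obtain ⟨h1, h2, h3, h4⟩ := hx
  let ν : P → ℕ := fun p => nm h1 (surjInv hq p)
  have hν : ∀ k : Kc, ν (q k) = nm h1 k := by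
    intro k
    exact (h4 _ _ _ _ (nm_spec h1 _) (nm_spec h1 _)).2 (surjInv_eq hq (q k))
  have hνi : Injective ν := by
    intro p p' hpp
    obtain ⟨k, rfl⟩ := hq p
    obtain ⟨l, rfl⟩ := hq p'
    rw [hν, hν] at hpp
    exact (h4 _ _ _ _ (nm_spec h1 _) (nm_spec h1 _)).1 hpp
  have hνr : range ν = CP Kc x := by
    ext p
    constructor
    · rintro ⟨r, rfl⟩
      obtain ⟨k, rfl⟩ := hq r
      rw [hν]
      exact ⟨k, k.2, nm_spec h1 k⟩
    · rintro ⟨k, hk, hp⟩
      refine ⟨q ⟨k, hk⟩, ?_⟩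
      rw [hν]
      exact (nm_eq h1 ⟨k, hk⟩ hp).symm
  have hfin : Finite ((CP Kc x)ᶜ : Set ℕ) := h2
  have hcard : Nat.card ((CP Kc x)ᶜ : Set ℕ) = j := h3
  let c : Fin j ≃ ((CP Kc x)ᶜ : Set ℕ) := (Finite.equivFinOfCardEq hcard).symm
  let f : P ⊕ Fin j → ℕ := Sum.elim ν fun i => (c i : ℕ)
  have hf : Bijective f := by
    constructor
    · rintro (u | u) (v | v) huv
      · exact congrArg Sum.inl (hνi huv)
      · exfalso
        have h5 : ν u ∈ CP Kc x := hνr ▸ mem_range_self u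
        exact (c v).2 ((show ν u = (c v : ℕ) from huv) ▸ h5)
      · exfalso
        have h5 : ν v ∈ CP Kc x := hνr ▸ mem_range_self v
        exact (c u).2 ((show (c u : ℕ) = ν v from huv) ▸ h5)
      · exact congrArg Sum.inr (c.injective (Subtype.ext huv))
    · intro p
      by_cases hp : p ∈ CP Kc x
      · rw [← hνr] at hp
        obtain ⟨r, hr⟩ := hp
        exact ⟨Sum.inl r, hr⟩
      · refine ⟨Sum.inr (c.symm ⟨p, hp⟩), ?_⟩
        simp [f]
  refine ⟨Equiv.ofBijective f hf, fun k => ?_⟩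
  have h6 : Equiv.ofBijective f hf (Sum.inl (q k)) = nm h1 k := hν k
  rw [h6]
  exact nm_spec h1 k

theorem measurable_nm (k p : ℕ) : MeasurableSet {x : RS a | Nm x k p} := by
  have h1 : Measurable fun x : RS a => x k (fun _ => p) :=
    (measurable_pi_apply _).comp (measurable_pi_apply _)
  exact h1 (measurableSet_singleton true)

theorem s_CSF : S_CSF := by
  classical
  intro a Kc P _ q hq j B hB hiso hBx
  by_cases hne : B.Nonempty
  swap
  · left
    rw [not_nonempty_iff_eq_empty] at hne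
    refine ⟨fun _ _ _ => true, fun x hx => ?_⟩
    rw [hne] at hx
    exact absurd hx (notMem_empty x)
  obtain ⟨x₀, hx₀⟩ := hne
  obtain ⟨β, hβ⟩ := exists_equiv hq (hBx x₀ hx₀)
  -- the normalised structures
  set Y : Set (RS a) := {y | y ∈ B ∧ ∀ k : Kc, Nm y k (β (Sum.inl (q k)))} with hY
  have hYm : MeasurableSet Y := by
    have h1 : Y = B ∩ ⋂ k : Kc, {y | Nm y k (β (Sum.inl (q k)))} := by
      ext y
      simp [hY]
    rw [h1]
    exact hB.inter (MeasurableSet.iInter fun k => measurable_nm _ _)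
  have hYB : ∀ x ∈ B, ∃ y ∈ Y, RIso y x := by
    intro x hx
    obtain ⟨e, he⟩ := exists_equiv hq (hBx x hx)
    let τ : Equiv.Perm ℕ := β.symm.trans e
    let y : RS a := fun i v => x i (⇑τ ∘ v)
    have h1 : RIso y x := ⟨τ, fun i v => rfl⟩
    refine ⟨y, ⟨hiso x y (riso_symm h1) hx, fun k => ?_⟩, h1⟩
    have h2 : Nm x k (τ (β (Sum.inl (q k)))) := by
      have h3 : τ (β (Sum.inl (q k))) = e (Sum.inl (q k)) := by simp [τ]
      rw [h3]
      exact he k
    exact h2
  by_cases hc : Y.Countable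
  · left
    by_cases hYe : Y.Nonempty
    · obtain ⟨f, hf⟩ := hc.exists_eq_range hYe
      refine ⟨f, fun x hx => ?_⟩
      obtain ⟨y, hy, hyx⟩ := hYB x hx
      rw [hf] at hy
      obtain ⟨n, rfl⟩ := hy
      exact ⟨n, hyx⟩
    · obtain ⟨y, hy, -⟩ := hYB x₀ hx₀
      exact absurd ⟨y, hy⟩ hYe
  right
  have hYs : StandardBorelSpace Y := hYm.standardBorel
  let ι : Type := {π : Equiv.Perm ℕ // ∀ p : P, π (β (Sum.inl p)) = β (Sum.inl p)}
  have hι : Countable ι := by
    let F : ι → (Fin j → ℕ) := fun π i => π.1 (β (Sum.inr i))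
    have hF : Injective F := by
      intro π π' h
      apply Subtype.ext
      apply Equiv.ext
      intro n
      obtain ⟨u, rfl⟩ := β.surjective n
      rcases u with p | i
      · rw [π.2, π'.2]
      · exact congrFun h i
    exact hF.countable
  let J : ι → Y → RS a := fun π y i v => y.1 i (⇑π.1 ∘ v)
  have hJ : ∀ π, Measurable (J π) := fun π =>
    measurable_pi_lambda _ fun i => measurable_pi_lambda _ fun v => by
      have h1 : Measurable fun x : RS a => x i (⇑π.1 ∘ v) :=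
        (measurable_pi_apply _).comp (measurable_pi_apply _)
      exact h1.comp measurable_subtype_coe
  have hE : ∀ y y' : Y, RIso y.1 y'.1 → ∀ π : ι, ∃ π' : ι, J π y = J π' y' := by
    rintro ⟨y, hy⟩ ⟨y', hy'⟩ ⟨σ, hσ⟩ π
    have hσβ : ∀ p : P, σ (β (Sum.inl p)) = β (Sum.inl p) := by
      intro p
      obtain ⟨k, rfl⟩ := hq p
      have h1 : Nm y' k (σ (β (Sum.inl (q k)))) := (riso_nm hσ _ _).2 (hy.2 k)
      have h2 := (hBx y' hy'.1).1
      exact (nm_eq h2 k h1).trans (nm_eq h2 k (hy'.2 k)).symm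
    refine ⟨⟨σ * π.1, fun p => ?_⟩, ?_⟩
    · rw [Equiv.Perm.mul_apply, π.2, hσβ]
    · funext i v
      exact (hσ i (⇑π.1 ∘ v)).symm
  have hunc : ¬ (⋃ π, Set.range (J π)).Countable := by
    intro hcount
    apply hc
    let π₀ : ι := ⟨1, fun p => rfl⟩
    have h1 : (Set.range (J π₀)).Countable :=
      hcount.mono (Set.subset_iUnion (fun π => Set.range (J π)) π₀)
    refine h1.mono ?_
    intro y hy
    exact ⟨⟨y, hy⟩, rfl⟩
  obtain ⟨h, h1, h2⟩ := Pool.Agent.H565R2.FO2.perfect_of_uncountable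
    (Y := Y) (X := RS a) (Z := RS a) (ι := ι)
    Subtype.val measurable_subtype_coe J hJ (fun y y' => RIso y.1 y'.1) hE hunc
  refine ⟨fun c => (h c).1, h1, fun c => (h c).2.1, fun c d hcd => ?_⟩
  by_contra hne
  exact h2 c d hne hcd

end Pool.Agent.L7h73.UC
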