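import Pool.Agent.L7h73.UC.Csf

set_option autoImplicit false

/-!
# Project UC (helper71), part CST: the dichotomy for Borel classes with named points
-/

namespace Pool.Agent.L7h73.UC

open Set Function
open Pool.Agent.H533R2.VO (RS RIso Dich)
open Pool.Agent.L7h71.UC

variable {a : ℕ → ℕ}

/-- countable unions -/
theorem dich_iUnion {ι : Type} [Countable ι] (C : ι → Set (RS a)) (h : ∀ i, Dich (C i)) :
    Dich (⋃ i, C i) := by
  by_cases hr : ∃ i, ∃ g : (ℕ → Bool) → RS a, Continuous g ∧ (∀ c, g c ∈ C i) ∧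
      ∀ c d : ℕ → Bool, RIso (g c) (g d) → c = d
  · obtain ⟨i, g, h1, h2, h3⟩ := hr
    exact Or.inr ⟨g, h1, fun c => mem_iUnion.2 ⟨i, h2 c⟩, h3⟩
  · left
    have hl : ∀ i, ∃ f : ℕ → RS a, ∀ x ∈ C i, ∃ n, RIso (f n) x := by
      intro i
      rcases h i with h1 | h1
      · exact h1
      · exact absurd ⟨i, h1⟩ hr
    choose f hf using hl
    by_cases hι : Nonempty ι
    · obtain ⟨s, hs⟩ := exists_surjective_nat (ι × ℕ)
      refine ⟨fun n => f (s n).1 (s n).2, fun x hx => ?_⟩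
      obtain ⟨i, hi⟩ := mem_iUnion.1 hx
      obtain ⟨n, hn⟩ := hf i x hi
      obtain ⟨m, hm⟩ := hs (i, n)
      refine ⟨m, ?_⟩
      change RIso (f (s m).1 (s m).2) x
      rw [hm]
      exact hn
    · refine ⟨fun _ _ _ => true, fun x hx => ?_⟩
      obtain ⟨i, -⟩ := mem_iUnion.1 hx
      exact absurd ⟨i⟩ hι

open Classical in
/-- the equality pattern of the named points -/
noncomputable def pat (Kc : Set ℕ) (x : RS a) : ℕ × ℕ → Bool := fun kl =>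
  decide (kl.1 ∈ Kc ∧ kl.2 ∈ Kc ∧ ∃ p, Nm x kl.1 p ∧ Nm x kl.2 p)

theorem pat_iff {Kc : Set ℕ} {x : RS a} (k l : Kc) :
    pat Kc x (k, l) = true ↔ ∃ p, Nm x k p ∧ Nm x l p := by
  classical
  unfold pat
  rw [decide_eq_true_iff]
  exact ⟨fun h => h.2.2, fun h => ⟨k.2, l.2, h⟩⟩

theorem pat_nm {Kc : Set ℕ} {x : RS a} (h : Cs Kc x) (k l : Kc) :
    pat Kc x (k, l) = true ↔ nm h k = nm h l := by
  rw [pat_iff]
  constructor
  · rintro ⟨p, h1, h2⟩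
    rw [← nm_eq h k h1, ← nm_eq h l h2]
  · intro h1
    exact ⟨nm h k, nm_spec h k, h1 ▸ nm_spec h l⟩

theorem pat_ext {Kc : Set ℕ} {x y : RS a}
    (h : ∀ k l : Kc, (∃ p, Nm x k p ∧ Nm x l p) ↔ ∃ p, Nm y k p ∧ Nm y l p) :
    pat Kc x = pat Kc y := by
  classical
  funext kl
  obtain ⟨k, l⟩ := kl
  unfold pat
  rw [decide_eq_decide]
  constructor
  · rintro ⟨h1, h2, h3⟩
    exact ⟨h1, h2, (h ⟨k, h1⟩ ⟨l, h2⟩).1 h3⟩
  · rintro ⟨h1, h2, h3⟩
    exact ⟨h1, h2, (h ⟨k, h1⟩ ⟨l, h2⟩).2 h3⟩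

theorem pat_iso (Kc : Set ℕ) {x y : RS a} (h : RIso x y) : pat Kc x = pat Kc y := by
  obtain ⟨σ, hσ⟩ := h
  apply pat_ext
  intro k l
  constructor
  · rintro ⟨p, h1, h2⟩
    exact ⟨σ p, (riso_nm hσ _ _).2 h1, (riso_nm hσ _ _).2 h2⟩
  · rintro ⟨p, h1, h2⟩
    obtain ⟨p, rfl⟩ := σ.surjective p
    exact ⟨p, (riso_nm hσ _ _).1 h1, (riso_nm hσ _ _).1 h2⟩

theorem pat_meas (Kc : Set ℕ) : Measurable (pat Kc : RS a → ℕ × ℕ → Bool) := by
  classical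
  refine measurable_pi_lambda _ fun kl => ?_
  obtain ⟨k, l⟩ := kl
  have h1 : MeasurableSet {x : RS a | k ∈ Kc ∧ l ∈ Kc ∧ ∃ p, Nm x k p ∧ Nm x l p} := by
    have h2 : {x : RS a | k ∈ Kc ∧ l ∈ Kc ∧ ∃ p, Nm x k p ∧ Nm x l p} =
        {x : RS a | k ∈ Kc} ∩ ({x : RS a | l ∈ Kc} ∩
          ⋃ p, ({x : RS a | Nm x k p} ∩ {x : RS a | Nm x l p})) := by
      ext x
      simp
    rw [h2]
    exact (MeasurableSet.const (k ∈ Kc)).inter ((MeasurableSet.const (l ∈ Kc)).inter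
      (MeasurableSet.iUnion fun p => (measurable_nm k p).inter (measurable_nm l p)))
  refine measurable_to_bool ?_
  convert h1 using 1
  ext x
  simp [pat]

/-- the set of named points -/
theorem cp_meas (Kc : Set ℕ) (p : ℕ) : MeasurableSet {x : RS a | p ∈ CP Kc x} := by
  have h : {x : RS a | p ∈ CP Kc x} = ⋃ k : Kc, {x : RS a | Nm x k p} := by
    ext x
    simp [CP]
  rw [h]
  exact MeasurableSet.iUnion fun k => measurable_nm _ _

theorem cp_eq_meas (Kc : Set ℕ) (F : Finset ℕ) :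
    MeasurableSet {x : RS a | (CP Kc x)ᶜ = (F : Set ℕ)} := by
  have h : {x : RS a | (CP Kc x)ᶜ = (F : Set ℕ)} =
      ⋂ p : ℕ, {x : RS a | p ∈ CP Kc x ↔ p ∉ F} := by
    ext x
    rw [mem_iInter]
    constructor
    · intro h p
      have h1 : (CP Kc x)ᶜ = (F : Set ℕ) := h
      change p ∈ CP Kc x ↔ p ∉ F
      rw [← Finset.mem_coe, ← h1, mem_compl_iff, not_not]
    · intro h
      change (CP Kc x)ᶜ = (F : Set ℕ)
      ext p
      have h1 : p ∈ CP Kc x ↔ p ∉ F := h p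
      rw [mem_compl_iff, h1, not_not, Finset.mem_coe]
  rw [h]
  refine MeasurableSet.iInter fun p => ?_
  by_cases hp : p ∈ F
  · have h1 : {x : RS a | p ∈ CP Kc x ↔ p ∉ F} = {x : RS a | p ∈ CP Kc x}ᶜ := by
      ext x
      simp [hp]
    rw [h1]
    exact (cp_meas Kc p).compl
  · have h1 : {x : RS a | p ∈ CP Kc x ↔ p ∉ F} = {x : RS a | p ∈ CP Kc x} := by
      ext x
      simp [hp]
    rw [h1]
    exact cp_meas Kc p

theorem cp_fin_meas (Kc : Set ℕ) (j : ℕ) :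
    MeasurableSet {x : RS a | (CP Kc x)ᶜ.Finite ∧ (CP Kc x)ᶜ.ncard = j} := by
  have h : {x : RS a | (CP Kc x)ᶜ.Finite ∧ (CP Kc x)ᶜ.ncard = j} =
      ⋃ F : {F : Finset ℕ // F.card = j}, {x : RS a | (CP Kc x)ᶜ = ((F : Finset ℕ) : Set ℕ)} := by
    ext x
    rw [mem_iUnion]
    constructor
    · rintro ⟨h1, h2⟩
      refine ⟨⟨h1.toFinset, ?_⟩, h1.coe_toFinset.symm⟩
      rw [← h2, ncard_eq_toFinset_card _ h1]
    · rintro ⟨⟨F, hF⟩, h1⟩
      have h2 : (CP Kc x)ᶜ = (F : Set ℕ) := h1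
      change (CP Kc x)ᶜ.Finite ∧ (CP Kc x)ᶜ.ncard = j
      rw [h2, ncard_coe_finset]
      exact ⟨F.finite_toSet, hF⟩
  rw [h]
  exact MeasurableSet.iUnion fun F => cp_eq_meas Kc F

theorem cp_inf_meas (Kc : Set ℕ) : MeasurableSet {x : RS a | (CP Kc x)ᶜ.Infinite} := by
  have h : {x : RS a | (CP Kc x)ᶜ.Infinite} =
      (⋃ j : ℕ, {x : RS a | (CP Kc x)ᶜ.Finite ∧ (CP Kc x)ᶜ.ncard = j})ᶜ := by
    ext x
    rw [mem_compl_iff, mem_iUnion]
    constructor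
    · rintro h1 ⟨j, h2⟩
      exact h1 h2.1
    · intro h1 h2
      exact h1 ⟨_, h2, rfl⟩
  rw [h]
  exact (MeasurableSet.iUnion fun j => cp_fin_meas Kc j).compl

theorem cp_iso (Kc : Set ℕ) {x y : RS a} {σ : Equiv.Perm ℕ}
    (hσ : ∀ (i : ℕ) (v : Fin (a i) → ℕ), y i (⇑σ ∘ v) = x i v) :
    (CP Kc y)ᶜ = σ '' (CP Kc x)ᶜ := by
  have h : CP Kc y = σ '' CP Kc x := by
    ext p
    obtain ⟨p, rfl⟩ := σ.surjective p
    rw [σ.injective.mem_set_image]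
    constructor
    · rintro ⟨k, hk, h1⟩
      exact ⟨k, hk, (riso_nm hσ _ _).1 h1⟩
    · rintro ⟨k, hk, h1⟩
      exact ⟨k, hk, (riso_nm hσ _ _).2 h1⟩
  rw [h, image_compl_eq σ.bijective]

theorem pat_cyo {Kc : Set ℕ} {F : Finset ℕ} {x y : RS a} (hx : Cs Kc x) (hy : Cs Kc y)
    (h : CYo Kc F x y) : pat Kc y = pat Kc x := by
  obtain ⟨e, he1, -, he2⟩ := h ∅
  have key : ∀ k : Kc, Nm x k (e (nm hy k)) := by
    intro k
    have h1 : nm hy k ∈ (↑(∅ : Finset ℕ) ∪ CP Kc y : Set ℕ) := Or.inr ⟨k, k.2, nm_spec hy k⟩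
    have h2 := he2 k (fun _ => nm hy k) (fun _ => h1)
    exact h2.trans (nm_spec hy k)
  apply pat_ext
  intro k l
  rw [← pat_iff, ← pat_iff, pat_nm hy, pat_nm hx, ← nm_eq hx k (key k), ← nm_eq hx l (key l)]
  constructor
  · intro h1
    rw [h1]
  · intro h1
    exact he1 (Or.inr ⟨k, k.2, nm_spec hy k⟩) (Or.inr ⟨l, l.2, nm_spec hy l⟩) h1

theorem s_CST (hCSP : S_CSP) (hCSF : S_CSF) : S_CST := by
  classical
  intro a Kc B hB hiso hCs hcyo
  by_cases hc : (pat Kc '' B).Countable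
  swap
  · right
    have hYs : StandardBorelSpace B := hB.standardBorel
    obtain ⟨h, h1, h2⟩ := Pool.Agent.H565R2.FO2.perfect_of_uncountable
      (Y := B) (X := RS a) (Z := ℕ × ℕ → Bool) (ι := Unit)
      Subtype.val measurable_subtype_coe (fun _ y => pat Kc y.1)
      (fun _ => (pat_meas Kc).comp measurable_subtype_coe) (fun y y' => RIso y.1 y'.1)
      (fun y y' hyy i => ⟨i, pat_iso Kc hyy⟩) (by
        intro hcount
        apply hc
        refine hcount.mono ?_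
        rintro _ ⟨x, hx, rfl⟩
        exact mem_iUnion.2 ⟨(), ⟨x, hx⟩, rfl⟩)
    refine ⟨fun c => (h c).1, h1, fun c => (h c).2, fun c d hcd => ?_⟩
    by_contra hne
    exact h2 c d hne hcd
  -- the pieces
  have hcc : Countable (pat Kc '' B) := hc.to_subtype
  let C : (pat Kc '' B) × Option ℕ → Set (RS a) := fun u =>
    (B ∩ pat Kc ⁻¹' {u.1.1}) ∩ (match u.2 with
      | none => {x : RS a | (CP Kc x)ᶜ.Infinite}
      | some j => {x : RS a | (CP Kc x)ᶜ.Finite ∧ (CP Kc x)ᶜ.ncard = j})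
  have hBC : B = ⋃ u, C u := by
    ext x
    rw [mem_iUnion]
    constructor
    · intro hx
      by_cases hf : (CP Kc x)ᶜ.Finite
      · exact ⟨(⟨pat Kc x, x, hx, rfl⟩, some (CP Kc x)ᶜ.ncard), ⟨hx, rfl⟩, hf, rfl⟩
      · exact ⟨(⟨pat Kc x, x, hx, rfl⟩, none), ⟨hx, rfl⟩, hf⟩
    · rintro ⟨u, hu⟩
      exact hu.1.1
  rw [hBC]
  apply dich_iUnion
  rintro ⟨⟨E, x₀, hx₀, hE⟩, w⟩
  -- the pattern
  let r : Kc → ℕ := nm (hCs x₀ hx₀)
  let P : Type := Set.range r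
  let q : Kc → P := Set.rangeFactorization r
  have hq : Surjective q := Set.rangeFactorization_surjective
  have hPat : ∀ x ∈ B, pat Kc x = E → Pat Kc q x := by
    intro x hx hxE k l p p' hp hp'
    have h1 : p = p' ↔ nm (hCs x hx) k = nm (hCs x hx) l := by
      rw [← nm_eq (hCs x hx) k hp, ← nm_eq (hCs x hx) l hp']
    have h2 : q k = q l ↔ nm (hCs x₀ hx₀) k = nm (hCs x₀ hx₀) l := by
      rw [Subtype.ext_iff]
      rfl
    rw [h1, h2, ← pat_nm (hCs x hx), ← pat_nm (hCs x₀ hx₀), hxE, hE]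
  have hEm : MeasurableSet (B ∩ pat Kc ⁻¹' {E}) :=
    hB.inter (pat_meas Kc (measurableSet_singleton E))
  cases w with
  | none =>
    refine hCSP a Kc P q hq _ (hEm.inter (cp_inf_meas Kc)) ?_ ?_ ?_
    · rintro x y hxy ⟨⟨h1, h2⟩, h3⟩
      refine ⟨⟨hiso x y hxy h1, ?_⟩, ?_⟩
      · change pat Kc y = E
        rw [← pat_iso Kc hxy]
        exact h2
      · obtain ⟨σ, hσ⟩ := hxy
        change (CP Kc y)ᶜ.Infinite
        rw [cp_iso Kc hσ]
        exact h3.image σ.injective.injOn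
    · rintro x ⟨⟨h1, h2⟩, h3⟩
      exact ⟨hCs x h1, h3, hPat x h1 h2⟩
    · rintro x ⟨⟨h1, h2⟩, h3⟩
      obtain ⟨F, hF⟩ := hcyo x h1
      refine ⟨F, fun y hy1 hy2 hy3 => ⟨⟨hF y hy1 hy3, ?_⟩, hy2⟩⟩
      change pat Kc y = E
      rw [pat_cyo (hCs x h1) hy1 hy3]
      exact h2
  | some j =>
    refine hCSF a Kc P q hq j _ (hEm.inter (cp_fin_meas Kc j)) ?_ ?_
    · rintro x y hxy ⟨⟨h1, h2⟩, h3, h4⟩
      refine ⟨⟨hiso x y hxy h1, ?_⟩, ?_⟩
      · change pat Kc y = E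
        rw [← pat_iso Kc hxy]
        exact h2
      · obtain ⟨σ, hσ⟩ := hxy
        change (CP Kc y)ᶜ.Finite ∧ (CP Kc y)ᶜ.ncard = j
        rw [cp_iso Kc hσ, ncard_image_of_injective _ σ.injective]
        exact ⟨h3.image _, h4⟩
    · rintro x ⟨⟨h1, h2⟩, h3, h4⟩
      exact ⟨hCs x h1, h3, h4, hPat x h1 h2⟩

end Pool.Agent.L7h73.UC
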